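import Pool.Agent.N151.SU2
import Pool.Agent.N275.QD.Def

set_option autoImplicit false

/-!
# Part SU of project QD
-/

namespace Pool.Agent.N151.SU

open Pool.Agent.R225.LP (gk ip)

theorem su : Pool.Agent.N275.QD.S_SU := by
  intro n l c s z hn hs hp hp1 hz
  have := two_dim n l c s z hn hs hp hp1 hz
  simpa only [ip, gk] using this

end Pool.Agent.N151.SU
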