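import Mathlib

set_option autoImplicit false

/-!
# One-dimensional supersolution inequality (project QD, part SU)
-/

namespace Pool.Agent.N151.SU

open MeasureTheory Set Filter Topology
open scoped Real

/-- one dimensional heat kernel -/
noncomputable def g (s y : ℝ) : ℝ := Real.exp (-(y ^ 2 / (4 * s))) / √(4 * π * s)

theorem g_nonneg (s y : ℝ) : 0 ≤ g s y := by unfold g; positivity

theorem g_cont (s : ℝ) : Continuous (g s) := by unfold g; fun_prop

theorem g_eq (s : ℝ) (hs : 0 < s) (y : ℝ) :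
    g s y = (√(4 * π * s))⁻¹ * Real.exp (-(1 / (4 * s)) * y ^ 2) := by
  unfold g
  rw [div_eq_inv_mul]
  congr 2
  ring

theorem g_int (s : ℝ) (hs : 0 < s) : Integrable (g s) := by
  have h : g s = fun y => (√(4 * π * s))⁻¹ * Real.exp (-(1 / (4 * s)) * y ^ 2) := by
    funext y; exact g_eq s hs y
  rw [h]
  exact (integrable_exp_neg_mul_sq (by positivity)).const_mul _

theorem g_one (s : ℝ) (hs : 0 < s) : ∫ y, g s y = 1 := by
  have h : g s = fun y => (√(4 * π * s))⁻¹ * Real.exp (-(1 / (4 * s)) * y ^ 2) := by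
    funext y; exact g_eq s hs y
  rw [h, integral_const_mul, integral_gaussian]
  have : π / (1 / (4 * s)) = 4 * π * s := by field_simp
  rw [this]
  have h2 : √(4 * π * s) ≠ 0 := by positivity
  field_simp

theorem g_tilt (s p a x : ℝ) (hs : 0 < s) :
    g s (x - a) * Real.exp (-(p * x)) = Real.exp (p ^ 2 * s - p * a) * g s (x - (a - 2 * s * p)) := by
  unfold g
  rw [div_mul_eq_mul_div, ← Real.exp_add, mul_div_assoc', ← Real.exp_add]
  congr 2
  field_simp
  ring

theorem tilt_int (s p a : ℝ) (hs : 0 < s) :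
    Integrable (fun x => g s (x - a) * Real.exp (-(p * x))) := by
  have h : (fun x => g s (x - a) * Real.exp (-(p * x))) =
      fun x => Real.exp (p ^ 2 * s - p * a) * g s (x - (a - 2 * s * p)) := by
    funext x; exact g_tilt s p a x hs
  rw [h]
  exact ((g_int s hs).comp_sub_right _).const_mul _

theorem tilt_integral (s p a : ℝ) (hs : 0 < s) :
    ∫ x, g s (x - a) * Real.exp (-(p * x)) = Real.exp (p ^ 2 * s - p * a) := by
  have h : (fun x => g s (x - a) * Real.exp (-(p * x))) =
      fun x => Real.exp (p ^ 2 * s - p * a) * g s (x - (a - 2 * s * p)) := by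
    funext x; exact g_tilt s p a x hs
  rw [h, integral_const_mul, integral_sub_right_eq_self (g s) (a - 2 * s * p), g_one s hs, mul_one]

/-- the elementary minorant -/
noncomputable def G (v : ℝ) : ℝ :=
  (Ioc 0 1).indicator (fun _ => 3 * Real.exp (-(1 / 4))) v -
    (Ioi 4).indicator (fun v => (v - 4) * Real.exp (-v)) v

theorem sinh_ge {x : ℝ} (hx : 0 ≤ x) : x ≤ Real.sinh x := Real.self_le_sinh_iff.2 hx

theorem sinh_le {x : ℝ} (hx : 0 ≤ x) : Real.sinh x ≤ x * Real.exp x := by
  have h1 : 1 - 2 * x ≤ Real.exp (-(2 * x)) := by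
    have := Real.add_one_le_exp (-(2 * x)); linarith
  rw [Real.sinh_eq]
  have h2 : Real.exp (-x) = Real.exp x * Real.exp (-(2 * x)) := by
    rw [← Real.exp_add]; congr 1; ring
  rw [h2]
  have h3 := Real.exp_pos x
  nlinarith

theorem G_le (q v : ℝ) (hq : 0 < q) (hq1 : q ≤ 1) (hv : 0 < v) :
    q * G v ≤ Real.sinh (q * (4 - v)) * Real.exp (-(v ^ 2 / 4)) := by
  unfold G
  rcases le_or_gt v 1 with h1 | h1
  · have e1 : (Ioc (0 : ℝ) 1).indicator (fun _ => 3 * Real.exp (-(1 / 4))) v = 3 * Real.exp (-(1 / 4)) :=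
      indicator_of_mem (show v ∈ Ioc (0 : ℝ) 1 from ⟨hv, h1⟩) _
    have e2 : (Ioi (4 : ℝ)).indicator (fun v => (v - 4) * Real.exp (-v)) v = 0 :=
      indicator_of_notMem (by simp; linarith) _
    rw [e1, e2, sub_zero]
    have a1 : q * 3 ≤ Real.sinh (q * (4 - v)) := by
      refine le_trans ?_ (sinh_ge (by nlinarith))
      nlinarith
    have a2 : Real.exp (-(1 / 4)) ≤ Real.exp (-(v ^ 2 / 4)) := by
      apply Real.exp_le_exp.2; nlinarith
    calc q * (3 * Real.exp (-(1 / 4))) = (q * 3) * Real.exp (-(1 / 4)) := by ring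
      _ ≤ _ := mul_le_mul a1 a2 (Real.exp_pos _).le (le_trans (by positivity) a1)
  · have e1 : (Ioc (0 : ℝ) 1).indicator (fun _ => 3 * Real.exp (-(1 / 4))) v = 0 :=
      indicator_of_notMem (by simp; intro; linarith) _
    rw [e1]
    rcases le_or_gt v 4 with h4 | h4
    · have e2 : (Ioi (4 : ℝ)).indicator (fun v => (v - 4) * Real.exp (-v)) v = 0 :=
        indicator_of_notMem (by simp; linarith) _
      rw [e2]
      have : 0 ≤ Real.sinh (q * (4 - v)) := by
        rw [Real.sinh_nonneg_iff]; nlinarith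
      have h5 := Real.exp_pos (-(v ^ 2 / 4))
      simp only [sub_zero, mul_zero]
      positivity
    · have e2 : (Ioi (4 : ℝ)).indicator (fun v => (v - 4) * Real.exp (-v)) v = (v - 4) * Real.exp (-v) :=
        indicator_of_mem (show v ∈ Ioi (4 : ℝ) from h4) _
      rw [e2]
      have h6 : Real.sinh (q * (4 - v)) = - Real.sinh (q * (v - 4)) := by
        rw [← Real.sinh_neg]; congr 1; ring
      rw [h6]
      have h7 : Real.sinh (q * (v - 4)) ≤ q * (v - 4) * Real.exp (v - 4) := by
        refine le_trans (sinh_le (by nlinarith)) ?_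
        apply mul_le_mul_of_nonneg_left _ (by nlinarith)
        apply Real.exp_le_exp.2; nlinarith
      have h8 : Real.exp (v - 4) * Real.exp (-(v ^ 2 / 4)) ≤ Real.exp (-v) := by
        rw [← Real.exp_add]
        apply Real.exp_le_exp.2; nlinarith [sq_nonneg (v - 4)]
      have h9 : Real.sinh (q * (v - 4)) * Real.exp (-(v ^ 2 / 4)) ≤ q * (v - 4) * Real.exp (-v) := by
        calc Real.sinh (q * (v - 4)) * Real.exp (-(v ^ 2 / 4))
            ≤ (q * (v - 4) * Real.exp (v - 4)) * Real.exp (-(v ^ 2 / 4)) :=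
              mul_le_mul_of_nonneg_right h7 (Real.exp_pos _).le
          _ = (q * (v - 4)) * (Real.exp (v - 4) * Real.exp (-(v ^ 2 / 4))) := by ring
          _ ≤ _ := mul_le_mul_of_nonneg_left h8 (by nlinarith)
      nlinarith

theorem tail_int : IntegrableOn (fun v : ℝ => (v - 4) * Real.exp (-v)) (Ioi 4) := by
  have h1 : IntegrableOn (fun v : ℝ => v * Real.exp (-v)) (Ioi 0) := by
    have := Real.GammaIntegral_convergent (s := 2) (by norm_num)
    refine this.congr_fun ?_ measurableSet_Ioi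
    intro x hx
    show Real.exp (-x) * x ^ ((2 : ℝ) - 1) = x * Real.exp (-x)
    rw [show (2 : ℝ) - 1 = 1 by norm_num, Real.rpow_one, mul_comm]
  have h2 : IntegrableOn (fun v : ℝ => Real.exp (-v)) (Ioi 0) := integrableOn_exp_neg_Ioi 0
  have h3 : IntegrableOn (fun v : ℝ => (v - 4) * Real.exp (-v)) (Ioi 0) := by
    have := h1.sub (h2.const_mul 4)
    refine this.congr_fun ?_ measurableSet_Ioi
    intro x _
    simp only [Pi.sub_apply]
    ring
  exact h3.mono_set (Ioi_subset_Ioi (by norm_num))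

theorem tail_integral : ∫ v in Ioi (4 : ℝ), (v - 4) * Real.exp (-v) = Real.exp (-4) := by
  have h := integral_Ioi_of_hasDerivAt_of_tendsto (a := 4) (f := fun v : ℝ => (3 - v) * Real.exp (-v))
    (f' := fun v : ℝ => (v - 4) * Real.exp (-v)) (m := 0) ?_ ?_ tail_int ?_
  · rw [h]; ring
  · fun_prop
  · intro x _
    have h1 : HasDerivAt (fun v : ℝ => Real.exp (-v)) (Real.exp (-x) * (-1)) x :=
      (hasDerivAt_neg x).exp
    have h2 : HasDerivAt (fun v : ℝ => 3 - v) (-1) x := by
      simpa using (hasDerivAt_id x).const_sub 3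
    exact (h2.mul h1).congr_deriv (by ring)
  · have h1 : Tendsto (fun v : ℝ => v ^ 1 * Real.exp (-v)) atTop (𝓝 0) :=
      Real.tendsto_pow_mul_exp_neg_atTop_nhds_zero 1
    have h2 : Tendsto (fun v : ℝ => Real.exp (-v)) atTop (𝓝 0) :=
      Real.tendsto_exp_neg_atTop_nhds_zero
    have := (h2.const_mul 3).sub h1
    simp only [mul_zero, sub_zero] at this
    refine this.congr ?_
    intro v; ring

theorem G_int : IntegrableOn G (Ioi 0) := by
  unfold G
  apply Integrable.sub
  · apply Integrable.integrableOn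
    rw [integrable_indicator_iff measurableSet_Ioc]
    exact integrableOn_const (by simp) (enorm_ne_top)
  · apply Integrable.integrableOn
    rw [integrable_indicator_iff measurableSet_Ioi]
    exact tail_int

theorem G_pos : 0 ≤ ∫ v in Ioi (0 : ℝ), G v := by
  unfold G
  rw [integral_sub]
  · rw [setIntegral_indicator measurableSet_Ioc, setIntegral_indicator measurableSet_Ioi]
    have e1 : Ioi (0 : ℝ) ∩ Ioc 0 1 = Ioc 0 1 := by
      exact inter_eq_right.2 (fun x hx => hx.1)
    have e2 : Ioi (0 : ℝ) ∩ Ioi 4 = Ioi 4 := by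
      exact inter_eq_right.2 (Ioi_subset_Ioi (by norm_num))
    rw [e1, e2, tail_integral]
    simp only [integral_const, smul_eq_mul]
    have : (volume.restrict (Ioc (0 : ℝ) 1)).real univ = 1 := by
      simp
    rw [this]
    have h4 : Real.exp (-4) ≤ Real.exp (-(1 / 4)) := Real.exp_le_exp.2 (by norm_num)
    have h5 := Real.exp_pos (-(1 / 4))
    nlinarith
  · apply Integrable.integrableOn
    rw [integrable_indicator_iff measurableSet_Ioc]
    exact integrableOn_const (by simp) (enorm_ne_top)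
  · apply Integrable.integrableOn
    rw [integrable_indicator_iff measurableSet_Ioi]
    exact tail_int


/-- the integrand -/
noncomputable def Ph (s p c a x : ℝ) : ℝ :=
  g s (x - a) * (Real.exp (-(p * x)) *
    (1 - Real.exp (-(8 * (p * √s))) * Real.exp (-(2 * p * (c - x)))))

theorem Ph_eq (s p c a x : ℝ) :
    Ph s p c a x = g s (x - a) * Real.exp (-(p * x)) -
      Real.exp (-(8 * (p * √s)) - 2 * p * c) * (g s (x - a) * Real.exp (-((-p) * x))) := by
  unfold Ph
  have : Real.exp (-(8 * (p * √s)) - 2 * p * c) * Real.exp (-((-p) * x)) =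
      Real.exp (-(p * x)) * (Real.exp (-(8 * (p * √s))) * Real.exp (-(2 * p * (c - x)))) := by
    rw [← Real.exp_add, ← Real.exp_add, ← Real.exp_add]
    congr 1; ring
  linear_combination (g s (x - a)) * this

theorem Ph_int (s p c a : ℝ) (hs : 0 < s) : Integrable (Ph s p c a) := by
  have : Ph s p c a = fun x => g s (x - a) * Real.exp (-(p * x)) -
      Real.exp (-(8 * (p * √s)) - 2 * p * c) * (g s (x - a) * Real.exp (-((-p) * x))) := by
    funext x; exact Ph_eq s p c a x
  rw [this]
  exact (tilt_int s p a hs).sub ((tilt_int s (-p) a hs).const_mul _)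

theorem Ph_integral (s p c a : ℝ) (hs : 0 < s) : ∫ x, Ph s p c a x =
    Real.exp (p ^ 2 * s) * (Real.exp (-(p * a)) *
      (1 - Real.exp (-(8 * (p * √s))) * Real.exp (-(2 * p * (c - a))))) := by
  have : Ph s p c a = fun x => g s (x - a) * Real.exp (-(p * x)) -
      Real.exp (-(8 * (p * √s)) - 2 * p * c) * (g s (x - a) * Real.exp (-((-p) * x))) := by
    funext x; exact Ph_eq s p c a x
  rw [this, integral_sub (tilt_int s p a hs) ((tilt_int s (-p) a hs).const_mul _),
    integral_const_mul, tilt_integral s p a hs, tilt_integral s (-p) a hs, ← Real.exp_add,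
    mul_sub, mul_sub, mul_one, ← Real.exp_add, ← Real.exp_add, ← Real.exp_add, ← Real.exp_add]
  congr 1 <;> (congr 1; ring)

/-- the lower bound for the integrand on the half line -/
theorem Ph_ge (s p c a y : ℝ) (hs : 0 < s) (hp : 0 < p) (hp1 : p * √s ≤ 1) (hac : a ≤ c)
    (hy : 0 < y) :
    (2 * Real.exp (-(p * c) - 4 * (p * √s) - (c - a) ^ 2 / (4 * s) - 2 * ((c - a) / √s)) /
      √(4 * π * s) * (p * √s)) * G ((√s)⁻¹ * y) ≤ Ph s p c a (c + y) := by
  have hr : 0 < √s := Real.sqrt_pos.2 hs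
  have hss : √s * √s = s := Real.mul_self_sqrt hs.le
  set r := √s with hr_def
  have hq : 0 < p * r := mul_pos hp hr
  have hη : 0 ≤ c - a := by linarith
  have hv : 0 < r⁻¹ * y := by positivity
  have key := G_le (p * r) (r⁻¹ * y) hq hp1 hv
  have e0 : p * r * (4 - r⁻¹ * y) = 4 * (p * r) - p * y := by field_simp
  have e1 : (r⁻¹ * y) ^ 2 / 4 = y ^ 2 / (4 * s) := by
    rw [← hss]; field_simp
  rw [e0, e1] at key
  have hK : 0 < √(4 * π * s) := by positivity
  -- the integrand
  have e2 : Ph s p c a (c + y) = (2 * Real.exp (-(p * c) - 4 * (p * r) - (c - a) ^ 2 / (4 * s)) /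
      √(4 * π * s)) * (Real.exp (-((c - a) * y / (2 * s))) *
        (Real.sinh (4 * (p * r) - p * y) * Real.exp (-(y ^ 2 / (4 * s))))) := by
    unfold Ph g
    rw [Real.sinh_eq]
    have f1 : Real.exp (-((c + y - a) ^ 2 / (4 * s))) =
        Real.exp (-((c - a) ^ 2 / (4 * s))) * Real.exp (-((c - a) * y / (2 * s))) *
          Real.exp (-(y ^ 2 / (4 * s))) := by
      rw [← Real.exp_add, ← Real.exp_add]; congr 1; field_simp; ring
    have f2 : Real.exp (-(p * (c + y))) * (1 - Real.exp (-(8 * (p * r))) *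
        Real.exp (-(2 * p * (c - (c + y))))) = Real.exp (-(p * c) - 4 * (p * r)) *
          (Real.exp (4 * (p * r) - p * y) - Real.exp (-(4 * (p * r) - p * y))) := by
      have k1 : Real.exp (-(p * (c + y))) =
          Real.exp (-(p * c) - 4 * (p * r)) * Real.exp (4 * (p * r) - p * y) := by
        rw [← Real.exp_add]; congr 1; ring
      have k2 : Real.exp (-(p * (c + y))) * (Real.exp (-(8 * (p * r))) *
          Real.exp (-(2 * p * (c - (c + y))))) =
          Real.exp (-(p * c) - 4 * (p * r)) * Real.exp (-(4 * (p * r) - p * y)) := by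
        rw [← Real.exp_add, ← Real.exp_add, ← Real.exp_add]; congr 1; ring
      linear_combination k1 - k2
    have f3 : Real.exp (-(p * c) - 4 * (p * r) - (c - a) ^ 2 / (4 * s)) =
        Real.exp (-(p * c) - 4 * (p * r)) * Real.exp (-((c - a) ^ 2 / (4 * s))) := by
      rw [← Real.exp_add]; congr 1
    rw [f1, f2, f3]
    field_simp
  rw [e2]
  have e3 : (2 * Real.exp (-(p * c) - 4 * (p * r) - (c - a) ^ 2 / (4 * s) - 2 * ((c - a) / r)) /
      √(4 * π * s) * (p * r)) * G (r⁻¹ * y) =
      (2 * Real.exp (-(p * c) - 4 * (p * r) - (c - a) ^ 2 / (4 * s)) / √(4 * π * s)) *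
        (Real.exp (-(2 * ((c - a) / r))) * (p * r * G (r⁻¹ * y))) := by
    rw [sub_eq_add_neg _ (2 * ((c - a) / r)), Real.exp_add]
    ring
  rw [e3]
  apply mul_le_mul_of_nonneg_left _ (by positivity)
  refine le_trans (mul_le_mul_of_nonneg_left key (Real.exp_pos _).le) ?_
  suffices hh : Real.exp (-(2 * ((c - a) / r))) * Real.sinh (4 * (p * r) - p * y) ≤
      Real.exp (-((c - a) * y / (2 * s))) * Real.sinh (4 * (p * r) - p * y) by
    have := mul_le_mul_of_nonneg_right hh (Real.exp_pos (-(y ^ 2 / (4 * s)))).le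
    simpa only [mul_assoc] using this
  rcases le_or_gt y (4 * r) with h | h
  · have hs0 : 0 ≤ Real.sinh (4 * (p * r) - p * y) := by
      rw [Real.sinh_nonneg_iff]; nlinarith
    apply mul_le_mul_of_nonneg_right _ hs0
    apply Real.exp_le_exp.2
    have : (c - a) * y / (2 * s) ≤ 2 * ((c - a) / r) := by
      rw [← hss, div_le_iff₀ (by positivity)]
      have : 2 * ((c - a) / r) * (2 * (r * r)) = 4 * r * (c - a) := by field_simp; ring
      rw [this]
      nlinarith
    linarith
  · have hs0 : Real.sinh (4 * (p * r) - p * y) ≤ 0 := by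
      rw [Real.sinh_nonpos_iff]; nlinarith
    apply mul_le_mul_of_nonpos_right _ hs0
    apply Real.exp_le_exp.2
    have : 2 * ((c - a) / r) ≤ (c - a) * y / (2 * s) := by
      rw [← hss, le_div_iff₀ (by positivity)]
      have : 2 * ((c - a) / r) * (2 * (r * r)) = 4 * r * (c - a) := by field_simp; ring
      rw [this]
      nlinarith
    linarith

theorem Ph_tail (s p c a : ℝ) (hs : 0 < s) (hp : 0 < p) (hp1 : p * √s ≤ 1) (hac : a ≤ c) :
    0 ≤ ∫ x in Ici c, Ph s p c a x := by
  rw [integral_Ici_eq_integral_Ioi]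
  have h1 : ∫ x in Ioi c, Ph s p c a x = ∫ y in Ioi (0 : ℝ), Ph s p c a (c + y) := by
    have := (measurePreserving_add_left volume c).setIntegral_preimage_emb
      (measurableEmbedding_addLeft c) (Ph s p c a) (Ioi c)
    rw [← this]
    congr 2
    ext y; simp
  rw [h1]
  have hr : 0 < √s := Real.sqrt_pos.2 hs
  set C := (2 * Real.exp (-(p * c) - 4 * (p * √s) - (c - a) ^ 2 / (4 * s) - 2 * ((c - a) / √s)) /
      √(4 * π * s) * (p * √s)) with hC
  have hC0 : 0 ≤ C := by rw [hC]; positivity
  have hGi : IntegrableOn (fun y => G ((√s)⁻¹ * y)) (Ioi 0) := by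
    have := (integrableOn_Ioi_comp_mul_left_iff G 0 (inv_pos.2 hr)).2 (by simpa using G_int)
    exact this
  have h2 : ∫ y in Ioi (0 : ℝ), C * G ((√s)⁻¹ * y) ≤ ∫ y in Ioi (0 : ℝ), Ph s p c a (c + y) := by
    apply setIntegral_mono_on (hGi.const_mul C) _ measurableSet_Ioi
    · intro y hy
      exact Ph_ge s p c a y hs hp hp1 hac hy
    · exact ((Ph_int s p c a hs).comp_add_left c).integrableOn
  refine le_trans ?_ h2
  rw [integral_const_mul]
  apply mul_nonneg hC0
  rw [integral_comp_mul_left_Ioi G 0 (inv_pos.2 hr)]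
  simp only [mul_zero, inv_inv, smul_eq_mul]
  exact mul_nonneg hr.le G_pos

theorem Ph_nonneg (s p c a x : ℝ) (hs : 0 < s) (hp : 0 < p) (hx : x < c) : 0 ≤ Ph s p c a x := by
  unfold Ph
  apply mul_nonneg (g_nonneg _ _)
  apply mul_nonneg (Real.exp_pos _).le
  have hr : 0 < √s := Real.sqrt_pos.2 hs
  rw [← Real.exp_add]
  have : Real.exp (-(8 * (p * √s)) + -(2 * p * (c - x))) ≤ 1 := by
    rw [Real.exp_le_one_iff]
    have : 0 < p * √s := mul_pos hp hr
    nlinarith
  linarith

/-- the one dimensional inequality -/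
theorem one_dim (s p c a : ℝ) (hs : 0 < s) (hp : 0 < p) (hp1 : p * √s ≤ 1) (hac : a ≤ c) :
    ∫⁻ x in Iio c, ENNReal.ofReal (Ph s p c a x) ≤
      ENNReal.ofReal (Real.exp (p ^ 2 * s) * (Real.exp (-(p * a)) *
      (1 - Real.exp (-(8 * (p * √s))) * Real.exp (-(2 * p * (c - a)))))) := by
  rw [← ofReal_integral_eq_lintegral_ofReal (Ph_int s p c a hs).integrableOn, ← Ph_integral s p c a hs]
  · apply ENNReal.ofReal_le_ofReal
    have := integral_add_compl (μ := volume) (f := Ph s p c a) (s := Iio c) measurableSet_Iio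
      (Ph_int s p c a hs)
    rw [← this, compl_Iio]
    have := Ph_tail s p c a hs hp hp1 hac
    linarith
  · rw [EventuallyLE, ae_restrict_iff' measurableSet_Iio]
    exact Eventually.of_forall (fun x hx => Ph_nonneg s p c a x hs hp hx)

end Pool.Agent.N151.SU
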