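import Mathlib
import Pool.Agent.N151.SU1

set_option autoImplicit false

/-!
# Two-dimensional supersolution inequality (project QD, part SU)
-/

namespace Pool.Agent.N151.SU

open MeasureTheory Set Filter Topology Complex
open scoped Real ENNReal

theorem lint_tilt (s q b : ℝ) (hs : 0 < s) :
    ∫⁻ u, ENNReal.ofReal (g s (u - b) * Real.exp (-(q * u))) =
      ENNReal.ofReal (Real.exp (q ^ 2 * s - q * b)) := by
  rw [← ofReal_integral_eq_lintegral_ofReal (tilt_int s q b hs), tilt_integral s q b hs]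
  exact Eventually.of_forall (fun x => mul_nonneg (g_nonneg _ _) (Real.exp_pos _).le)

theorem prod_int (f h : ℝ → ℝ≥0∞) (hf : Measurable f) (hh : Measurable h) :
    ∫⁻ ζ : ℂ, f ζ.re * h ζ.im = (∫⁻ x, f x) * ∫⁻ u, h u := by
  have h1 := Complex.volume_preserving_equiv_real_prod.lintegral_comp_emb
    Complex.measurableEquivRealProd.measurableEmbedding (fun q : ℝ × ℝ => f q.1 * h q.2)
  have h2 : ∫⁻ ζ : ℂ, f ζ.re * h ζ.im =
      ∫⁻ ζ : ℂ, (fun q : ℝ × ℝ => f q.1 * h q.2) (Complex.measurableEquivRealProd ζ) := by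
    rfl
  rw [h2, h1, Measure.volume_eq_prod, lintegral_prod_mul hf.aemeasurable hh.aemeasurable]

theorem two_dim (n l : ℂ) (c s : ℝ) (z : ℂ) (hn : ‖n‖ = 1) (hs : 0 < s)
    (hp : 0 < l.re * n.re + l.im * n.im) (hp1 : (l.re * n.re + l.im * n.im) * √s ≤ 1)
    (hz : n.re * z.re + n.im * z.im ≤ c) :
    ∫⁻ w in {w : ℂ | n.re * w.re + n.im * w.im < c},
      ENNReal.ofReal (Real.exp (-(‖w - z‖ ^ 2 / (4 * s))) / (4 * π * s)) *
      ENNReal.ofReal (Real.exp (-(l.re * w.re + l.im * w.im)) *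
        (1 - Real.exp (-(8 * ((l.re * n.re + l.im * n.im) * √s))) *
          Real.exp (-(2 * (l.re * n.re + l.im * n.im) * (c - (n.re * w.re + n.im * w.im)))))) ≤
    ENNReal.ofReal (Real.exp (‖l‖ ^ 2 * s) * (Real.exp (-(l.re * z.re + l.im * z.im)) *
        (1 - Real.exp (-(8 * ((l.re * n.re + l.im * n.im) * √s))) *
          Real.exp (-(2 * (l.re * n.re + l.im * n.im) * (c - (n.re * z.re + n.im * z.im))))))) := by
  set p := l.re * n.re + l.im * n.im with hpd
  set q := n.re * l.im - n.im * l.re with hqd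
  set a := n.re * z.re + n.im * z.im with had
  set b := n.re * z.im - n.im * z.re with hbd
  have hn2 : n.re ^ 2 + n.im ^ 2 = 1 := by
    have := Complex.sq_norm n
    rw [hn, Complex.normSq_apply] at this
    nlinarith
  let T : ℂ ≃ₗᵢ[ℝ] ℂ := rotation ⟨n, mem_sphere_zero_iff_norm.2 hn⟩
  have hT : ∀ ζ, T ζ = n * ζ := fun ζ => rotation_apply _ _
  have hmp : MeasurePreserving T volume volume := T.measurePreserving
  have hemb : MeasurableEmbedding T := T.toHomeomorph.measurableEmbedding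
  have hS : MeasurableSet {w : ℂ | n.re * w.re + n.im * w.im < c} := by
    apply measurableSet_lt <;> fun_prop
  rw [← hmp.setLIntegral_comp_preimage_emb hemb]
  have hpre : T ⁻¹' {w : ℂ | n.re * w.re + n.im * w.im < c} = {ζ : ℂ | ζ.re < c} := by
    ext ζ
    simp only [mem_preimage, mem_setOf_eq, hT, mul_re, mul_im]
    have : n.re * (n.re * ζ.re - n.im * ζ.im) + n.im * (n.re * ζ.im + n.im * ζ.re) = ζ.re := by
      linear_combination ζ.re * hn2
    rw [this]
  rw [hpre]
  have hS2 : MeasurableSet {ζ : ℂ | ζ.re < c} := by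
    apply measurableSet_lt <;> fun_prop
  have hF : ∀ ζ ∈ {ζ : ℂ | ζ.re < c},
      ENNReal.ofReal (Real.exp (-(‖T ζ - z‖ ^ 2 / (4 * s))) / (4 * π * s)) *
      ENNReal.ofReal (Real.exp (-(l.re * (T ζ).re + l.im * (T ζ).im)) *
        (1 - Real.exp (-(8 * (p * √s))) *
          Real.exp (-(2 * p * (c - (n.re * (T ζ).re + n.im * (T ζ).im)))))) =
      ENNReal.ofReal (Ph s p c a ζ.re) * ENNReal.ofReal (g s (ζ.im - b) * Real.exp (-(q * ζ.im))) := by
    intro ζ hζ
    have hζ' : ζ.re < c := hζ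
    rw [← ENNReal.ofReal_mul (by positivity), ← ENNReal.ofReal_mul (Ph_nonneg s p c a ζ.re hs hp hζ')]
    congr 1
    have e1 : ‖T ζ - z‖ ^ 2 = (ζ.re - a) ^ 2 + (ζ.im - b) ^ 2 := by
      rw [hT, Complex.sq_norm, Complex.normSq_apply]
      simp only [sub_re, sub_im, mul_re, mul_im, had, hbd]
      linear_combination (ζ.re ^ 2 + ζ.im ^ 2 - z.re ^ 2 - z.im ^ 2) * hn2
    have e2 : l.re * (T ζ).re + l.im * (T ζ).im = p * ζ.re + q * ζ.im := by
      rw [hT]; simp only [mul_re, mul_im, hpd, hqd]; ring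
    have e3 : n.re * (T ζ).re + n.im * (T ζ).im = ζ.re := by
      rw [hT]; simp only [mul_re, mul_im]; linear_combination ζ.re * hn2
    rw [e1, e2, e3]
    unfold Ph g
    have e4 : Real.exp (-(((ζ.re - a) ^ 2 + (ζ.im - b) ^ 2) / (4 * s))) =
        Real.exp (-((ζ.re - a) ^ 2 / (4 * s))) * Real.exp (-((ζ.im - b) ^ 2 / (4 * s))) := by
      rw [← Real.exp_add]; congr 1; ring
    have e5 : Real.exp (-(p * ζ.re + q * ζ.im)) = Real.exp (-(p * ζ.re)) * Real.exp (-(q * ζ.im)) := by
      rw [← Real.exp_add]; congr 1; ring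
    have e6 : (4 * π * s) = √(4 * π * s) * √(4 * π * s) :=
      (Real.mul_self_sqrt (by positivity)).symm
    rw [e4, e5]
    generalize Real.exp (-((ζ.re - a) ^ 2 / (4 * s))) = A1
    generalize Real.exp (-((ζ.im - b) ^ 2 / (4 * s))) = A2
    generalize Real.exp (-(p * ζ.re)) = A3
    generalize Real.exp (-(q * ζ.im)) = A4
    generalize (1 - Real.exp (-(8 * (p * √s))) * Real.exp (-(2 * p * (c - ζ.re)))) = A5
    have hK : √(4 * π * s) ≠ 0 := by positivity
    have e7 : A1 * A2 / (4 * π * s) = A1 / √(4 * π * s) * (A2 / √(4 * π * s)) := by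
      rw [div_mul_div_comm, ← e6]
    rw [e7]
    ring
  rw [setLIntegral_congr_fun hS2 hF, ← lintegral_indicator hS2]
  have hI : ∀ ζ : ℂ, ({ζ : ℂ | ζ.re < c}).indicator (fun ζ : ℂ => ENNReal.ofReal (Ph s p c a ζ.re) *
      ENNReal.ofReal (g s (ζ.im - b) * Real.exp (-(q * ζ.im)))) ζ =
      (Iio c).indicator (fun x => ENNReal.ofReal (Ph s p c a x)) ζ.re *
        ENNReal.ofReal (g s (ζ.im - b) * Real.exp (-(q * ζ.im))) := by
    intro ζ
    by_cases h : ζ.re < c
    · rw [indicator_of_mem (show ζ ∈ {ζ : ℂ | ζ.re < c} from h),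
        indicator_of_mem (show ζ.re ∈ Iio c from h)]
    · rw [indicator_of_notMem (show ζ ∉ {ζ : ℂ | ζ.re < c} from h),
        indicator_of_notMem (show ζ.re ∉ Iio c from h), zero_mul]
  simp only [hI]
  have hmP : Measurable (fun x => ENNReal.ofReal (Ph s p c a x)) := by
    apply Measurable.ennreal_ofReal
    unfold Ph g
    fun_prop
  have hmg : Measurable (fun u => ENNReal.ofReal (g s (u - b) * Real.exp (-(q * u)))) := by
    apply Measurable.ennreal_ofReal
    unfold g
    fun_prop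
  rw [prod_int _ _ (hmP.indicator measurableSet_Iio) hmg, lint_tilt s q b hs,
    lintegral_indicator measurableSet_Iio]
  refine le_trans (mul_le_mul_left (one_dim s p c a hs hp hp1 hz) _) ?_
  rw [← ENNReal.ofReal_mul']
  · apply le_of_eq
    congr 1
    have e1 : ‖l‖ ^ 2 = p ^ 2 + q ^ 2 := by
      rw [Complex.sq_norm, Complex.normSq_apply, hpd, hqd]
      linear_combination (-(l.re ^ 2 + l.im ^ 2)) * hn2
    have e2 : l.re * z.re + l.im * z.im = p * a + q * b := by
      rw [hpd, hqd, had, hbd]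
      linear_combination (-(l.re * z.re + l.im * z.im)) * hn2
    rw [e1, e2]
    have e3 : Real.exp (p ^ 2 * s) * Real.exp (-(p * a)) * Real.exp (q ^ 2 * s - q * b) =
        Real.exp ((p ^ 2 + q ^ 2) * s) * Real.exp (-(p * a + q * b)) := by
      rw [← Real.exp_add, ← Real.exp_add, ← Real.exp_add]; congr 1; ring
    linear_combination (1 - Real.exp (-(8 * (p * √s))) * Real.exp (-(2 * p * (c - a)))) * e3
  · exact (Real.exp_pos _).le

end Pool.Agent.N151.SU
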